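import Mathlib

namespace Pool.Agent.Results.MP_ab03e0_co.Parity

open Equiv

theorem result (S : Type) [Fintype S] (op : S → S → S)
    (hl : ∀ a b, ∃! x, op a x = b) (hr : ∀ a b, ∃! x, op x a = b)
    (hid : ∀ x y, op (op x y) y = op x (op x y)) :
    Fintype.card S % 4 = 0 ∨ Fintype.card S % 4 = 1 := by
  classical
  have il : ∀ a x y, op a x = op a y → x = y := fun a x y h => (hl a (op a y)).unique h rfl
  have ir : ∀ a x y, op x a = op y a → x = y := fun a x y h => (hr a (op y a)).unique h rfl
  choose ld hld using fun a b => (hl a b).exists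
  let A : Perm (S × S) := Equiv.ofBijective (fun p => (p.1, op p.1 p.2))
    (Finite.injective_iff_bijective.1 (by
      rintro ⟨a, b⟩ ⟨c, d⟩ h
      simp only [Prod.mk.injEq] at h
      obtain ⟨rfl, h⟩ := h
      rw [il _ _ _ h]))
  let B : Perm (S × S) := Equiv.ofBijective (fun p => (ld p.1 p.2, p.2))
    (Finite.injective_iff_bijective.1 (by
      rintro ⟨a, b⟩ ⟨c, d⟩ h
      simp only [Prod.mk.injEq] at h
      obtain ⟨h, rfl⟩ := h
      have h1 := hld a b
      have h2 := hld c b
      rw [h] at h1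
      rw [ir _ _ _ (h1.trans h2.symm)]))
  let C : Perm (S × S) := Equiv.ofBijective (fun p => (p.1, op p.2 p.1))
    (Finite.injective_iff_bijective.1 (by
      rintro ⟨a, b⟩ ⟨c, d⟩ h
      simp only [Prod.mk.injEq] at h
      obtain ⟨rfl, h⟩ := h
      rw [ir _ _ _ h]))
  let D : Perm (S × S) := Equiv.prodComm S S
  have key : B * B * (A * A) = C * C * D := by
    ext1 ⟨x, y⟩
    show (ld (ld x (op x (op x y))) (op x (op x y)), op x (op x y)) = (y, op (op x y) y)
    have e1 : ld x (op x (op x y)) = op x y := il x _ _ (hld _ _)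
    rw [e1, ← hid, il (op x y) _ _ (hld _ _)]
  have hs := congrArg Perm.sign key
  simp only [Perm.sign_mul, Int.units_mul_self, one_mul] at hs
  have hD : D ^ 2 = 1 := by ext1 ⟨x, y⟩; rfl
  have hf : Fintype.card (Function.fixedPoints D) = Fintype.card S := by
    apply Fintype.card_congr
    refine ⟨fun p => p.1.1, fun x => ⟨(x, x), rfl⟩, ?_, fun x => rfl⟩
    rintro ⟨⟨x, y⟩, h⟩
    have : (y, x) = (x, y) := h
    simp only [Prod.mk.injEq] at this
    obtain ⟨rfl, _⟩ := this
    rfl
  rw [Perm.sign_of_pow_two_eq_one hD, hf, Fintype.card_prod] at hs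
  have he := (neg_one_pow_eq_one_iff_even (by decide)).1 hs.symm
  generalize Fintype.card S = n at he
  obtain ⟨k, hk⟩ := he
  have hle : n ≤ n * n := Nat.le_mul_self n
  have h2 : (n * n) % 2 = n % 2 := by
    rcases Nat.mod_two_eq_zero_or_one n with h | h <;> simp [Nat.mul_mod, h]
  have h4 : (n * n) % 4 = n % 4 := by omega
  have h5 : n % 4 < 4 := Nat.mod_lt _ (by norm_num)
  rw [Nat.mul_mod] at h4
  generalize n % 4 = r at h4 h5
  interval_cases r <;> simp_all

end Pool.Agent.Results.MP_ab03e0_co.Parity
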